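import Mathlib

/-!
# Pairs of integers with the same prime divisors, close to each other

The number of pairs `a < b < 2a`, `b ≤ x`, with the same prime divisors and `L (b - a) ≤ a` is
`O(x / √L)`.
-/

set_option autoImplicit false

namespace Pool.Agent.H69.ED

open Finset

/-- the product of the distinct prime divisors -/
def rad (n : ℕ) : ℕ := ∏ p ∈ n.primeFactors, p

lemma rad_pos (n : ℕ) : 0 < rad n :=
  Finset.prod_pos fun _ hp => (Nat.prime_of_mem_primeFactors hp).pos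

lemma rad_mul {m n : ℕ} (h : m.Coprime n) : rad (m * n) = rad m * rad n := by
  unfold rad
  rw [Nat.Coprime.primeFactors_mul h, Finset.prod_union (Nat.Coprime.disjoint_primeFactors h)]

lemma rad_prime_pow {p k : ℕ} (hp : p.Prime) (hk : k ≠ 0) : rad (p ^ k) = p := by
  unfold rad
  rw [Nat.primeFactors_prime_pow hk hp, Finset.prod_singleton]

/-- `1 / (u^α R(u))` -/
noncomputable def ff (α : ℝ) (u : ℕ) : ℝ := ((u : ℝ) ^ α * rad u)⁻¹

lemma ff_nonneg (α : ℝ) (u : ℕ) : 0 ≤ ff α u := by unfold ff; positivity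

lemma ff_one (α : ℝ) : ff α 1 = 1 := by simp [ff, rad]

lemma ff_mul (α : ℝ) {m n : ℕ} (h : m.Coprime n) : ff α (m * n) = ff α m * ff α n := by
  unfold ff
  rw [rad_mul h]
  push_cast
  rw [Real.mul_rpow (by positivity) (by positivity), ← mul_inv]
  congr 1
  ring

lemma ff_prime_pow (α : ℝ) {p : ℕ} (hp : p.Prime) (k : ℕ) :
    ff α (p ^ (k + 1)) = (p : ℝ)⁻¹ * ((p : ℝ) ^ α)⁻¹ * (((p : ℝ) ^ α)⁻¹) ^ k := by
  unfold ff
  rw [rad_prime_pow hp (Nat.succ_ne_zero k)]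
  have h1 : ((p ^ (k + 1) : ℕ) : ℝ) ^ α = ((p : ℝ) ^ α) ^ (k + 1) := by
    push_cast
    rw [← Real.rpow_natCast, ← Real.rpow_mul (by positivity), ← Real.rpow_natCast (_ ^ _),
      ← Real.rpow_mul (by positivity)]
    congr 1
    ring
  rw [h1, pow_succ, mul_inv, mul_inv, inv_pow]
  ring

lemma tt_bound {α : ℝ} (hα : 0 < α) {p : ℕ} (hp : p.Prime) :
    0 < ((p : ℝ) ^ α)⁻¹ ∧ ((p : ℝ) ^ α)⁻¹ ≤ ((2 : ℝ) ^ α)⁻¹ := by
  have hp2 : (2 : ℝ) ≤ p := by exact_mod_cast hp.two_le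
  have h0 : 0 < (p : ℝ) ^ α := by positivity
  refine ⟨inv_pos.mpr h0, ?_⟩
  exact inv_anti₀ (by positivity) (Real.rpow_le_rpow (by norm_num) hp2 hα.le)

lemma two_bound {α : ℝ} (hα : 0 < α) : ((2 : ℝ) ^ α)⁻¹ < 1 :=
  inv_lt_one_of_one_lt₀ (Real.one_lt_rpow (by norm_num) hα)

lemma summable_pp {α : ℝ} (hα : 0 < α) {p : ℕ} (hp : p.Prime) :
    Summable (fun k : ℕ => ff α (p ^ k)) := by
  rw [← summable_nat_add_iff 1]
  have h := tt_bound hα hp
  have h2 := two_bound hα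
  simp only [ff_prime_pow α hp]
  exact (summable_geometric_of_lt_one h.1.le (by linarith [h.2])).mul_left _

lemma tsum_pp {α : ℝ} (hα : 0 < α) {p : ℕ} (hp : p.Prime) :
    ∑' k : ℕ, ff α (p ^ k) ≤
      1 + (1 - ((2 : ℝ) ^ α)⁻¹)⁻¹ * (1 / (p : ℝ) ^ (1 + α)) := by
  have h := tt_bound hα hp
  have h2 := two_bound hα
  have hp0 : (0 : ℝ) < p := by exact_mod_cast hp.pos
  rw [(summable_pp hα hp).tsum_eq_zero_add]
  simp only [pow_zero, ff_one, ff_prime_pow α hp]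
  rw [tsum_mul_left, tsum_geometric_of_lt_one h.1.le (by linarith [h.2])]
  have h1 : (p : ℝ)⁻¹ * ((p : ℝ) ^ α)⁻¹ = 1 / (p : ℝ) ^ (1 + α) := by
    rw [← mul_inv, one_div, Real.rpow_add hp0, Real.rpow_one]
  rw [h1]
  have h3 : (1 - ((p : ℝ) ^ α)⁻¹)⁻¹ ≤ (1 - ((2 : ℝ) ^ α)⁻¹)⁻¹ :=
    inv_anti₀ (by linarith) (by linarith [h.2])
  have h4 : 0 ≤ 1 / (p : ℝ) ^ (1 + α) := by positivity
  nlinarith

lemma exists_K {α : ℝ} (hα : 0 < α) :
    ∃ K : ℝ, 0 < K ∧ ∀ M : ℕ, ∑ u ∈ Icc 1 M, ff α u ≤ K := by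
  have h2 := two_bound hα
  have hD : 0 < (1 - ((2 : ℝ) ^ α)⁻¹)⁻¹ := inv_pos.mpr (by linarith)
  set D := (1 - ((2 : ℝ) ^ α)⁻¹)⁻¹ with hDdef
  have hs : Summable (fun n : ℕ => D * (1 / (n : ℝ) ^ (1 + α))) :=
    (Real.summable_one_div_nat_rpow.mpr (by linarith)).mul_left D
  refine ⟨Real.exp (∑' n : ℕ, D * (1 / (n : ℝ) ^ (1 + α))), Real.exp_pos _, fun M => ?_⟩
  obtain ⟨-, h⟩ := EulerProduct.summable_and_hasSum_smoothNumbers_prod_primesBelow_tsum
    (f := ff α) (ff_one α) (fun h => ff_mul α h)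
    (fun {p} hp => by
      have := summable_pp hα hp
      simpa only [Real.norm_of_nonneg (ff_nonneg α _)] using this) (M + 1)
  have h1 : HasSum (Set.indicator ((M + 1).smoothNumbers) (ff α))
      (∏ p ∈ (M + 1).primesBelow, ∑' n : ℕ, ff α (p ^ n)) := by
    rw [← hasSum_subtype_iff_indicator]
    exact h
  have h2 : ∑ u ∈ Icc 1 M, ff α u =
      ∑ u ∈ Icc 1 M, Set.indicator ((M + 1).smoothNumbers) (ff α) u := by
    refine sum_congr rfl fun u hu => ?_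
    rw [mem_Icc] at hu
    rw [Set.indicator_of_mem]
    exact Nat.mem_smoothNumbers_of_lt (by omega) (by omega)
  rw [h2]
  refine (sum_le_hasSum _ (fun u _ => Set.indicator_nonneg (fun u _ => ff_nonneg α u) u) h1).trans ?_
  calc ∏ p ∈ (M + 1).primesBelow, ∑' n : ℕ, ff α (p ^ n)
      ≤ ∏ p ∈ (M + 1).primesBelow, Real.exp (D * (1 / (p : ℝ) ^ (1 + α))) := by
        refine prod_le_prod (fun p _ => tsum_nonneg fun _ => ff_nonneg α _) fun p hp => ?_
        refine (tsum_pp hα (Nat.prime_of_mem_primesBelow hp)).trans ?_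
        rw [add_comm]
        exact Real.add_one_le_exp _
    _ = Real.exp (∑ p ∈ (M + 1).primesBelow, D * (1 / (p : ℝ) ^ (1 + α))) :=
        (Real.exp_sum _ _).symm
    _ ≤ _ := by
        rw [Real.exp_le_exp]
        exact hs.sum_le_tsum _ (fun n _ => by positivity)

/-- the pairs `a < b < 2a`, `b ≤ x`, with the same prime divisors and `L (b - a) ≤ a` -/
noncomputable def near (x : ℕ) (L : ℝ) : Finset (ℕ × ℕ) :=
  open Classical in
  ((Icc 1 x) ×ˢ (Icc 1 x)).filter fun p => p.1 < p.2 ∧ p.2 < 2 * p.1 ∧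
    p.1.primeFactors = p.2.primeFactors ∧ L * ((p.2 : ℝ) - p.1) ≤ p.1

lemma rad_mul_rad_dvd_gcd {a b : ℕ} (ha : 0 < a) (hb : 0 < b)
    (h : a.primeFactors = b.primeFactors) :
    rad (a / a.gcd b) * rad (b / a.gcd b) ∣ a.gcd b := by
  have hg : 0 < a.gcd b := Nat.gcd_pos_of_pos_left _ ha
  have hco : (a / a.gcd b).Coprime (b / a.gcd b) := Nat.coprime_div_gcd_div_gcd hg
  have ea : a.gcd b * (a / a.gcd b) = a := Nat.mul_div_cancel' (Nat.gcd_dvd_left a b)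
  have eb : a.gcd b * (b / a.gcd b) = b := Nat.mul_div_cancel' (Nat.gcd_dvd_right a b)
  rw [← rad_mul hco]
  unfold rad
  refine Finset.prod_primes_dvd _ (fun p hp => (Nat.prime_of_mem_primeFactors hp).prime)
    fun p hp => ?_
  have hpp := Nat.prime_of_mem_primeFactors hp
  have hd := Nat.dvd_of_mem_primeFactors hp
  have hiff : p ∣ a ↔ p ∣ b := by
    constructor
    · intro h1
      have : p ∈ a.primeFactors := Nat.mem_primeFactors.mpr ⟨hpp, h1, ha.ne'⟩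
      rw [h] at this
      exact Nat.dvd_of_mem_primeFactors this
    · intro h1
      have : p ∈ b.primeFactors := Nat.mem_primeFactors.mpr ⟨hpp, h1, hb.ne'⟩
      rw [← h] at this
      exact Nat.dvd_of_mem_primeFactors this
  rcases (Nat.Prime.dvd_mul hpp).mp hd with h1 | h1
  · have h2 : p ∣ b := hiff.mp (ea ▸ Dvd.dvd.mul_left h1 _)
    rw [← eb] at h2
    rcases (Nat.Prime.dvd_mul hpp).mp h2 with h3 | h3
    · exact h3
    · exact absurd (Nat.dvd_gcd h1 h3) (by rw [hco.gcd_eq_one]; exact hpp.one_lt.ne' ∘ Nat.dvd_one.mp)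
  · have h2 : p ∣ a := hiff.mpr (eb ▸ Dvd.dvd.mul_left h1 _)
    rw [← ea] at h2
    rcases (Nat.Prime.dvd_mul hpp).mp h2 with h3 | h3
    · exact h3
    · exact absurd (Nat.dvd_gcd h3 h1) (by rw [hco.gcd_eq_one]; exact hpp.one_lt.ne' ∘ Nat.dvd_one.mp)

lemma card_near {K : ℝ} (hK : 0 < K) (hKM : ∀ M : ℕ, ∑ u ∈ Icc 1 M, ff (1 / 4) u ≤ K) (x : ℕ) {L : ℝ}
    (hL : 1 ≤ L) : ((near x L).card : ℝ) ≤ K ^ 2 * x / √L := by
  classical
  set UV : Finset (ℕ × ℕ) := ((Icc 1 x) ×ˢ (Icc 1 x)).filter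
    fun p => p.1 < p.2 ∧ L ≤ p.1 with hUV
  set G : ℕ × ℕ → Finset ℕ := fun p => (Ioc 0 (x / p.2)).filter
    fun g => rad p.1 * rad p.2 ∣ g with hG
  have hsub : near x L ⊆ UV.biUnion fun p => (G p).image fun g => (g * p.1, g * p.2) := by
    intro p hp
    unfold near at hp
    rw [mem_filter, mem_product, mem_Icc, mem_Icc] at hp
    obtain ⟨⟨⟨ha1, ha2⟩, hb1, hb2⟩, hab, hb2a, hrad, hLab⟩ := hp
    obtain ⟨a, b⟩ := p
    simp only at ha1 ha2 hb1 hb2 hab hb2a hrad hLab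
    have hg : 0 < a.gcd b := Nat.gcd_pos_of_pos_left _ ha1
    have ea : a.gcd b * (a / a.gcd b) = a := Nat.mul_div_cancel' (Nat.gcd_dvd_left a b)
    have eb : a.gcd b * (b / a.gcd b) = b := Nat.mul_div_cancel' (Nat.gcd_dvd_right a b)
    have hdvd := rad_mul_rad_dvd_gcd ha1 hb1 hrad
    set g := a.gcd b with hgdef
    set u := a / g with hu
    set v := b / g with hv
    have hu0 : 0 < u := by
      rcases Nat.eq_zero_or_pos u with h0 | h0
      · rw [h0, mul_zero] at ea; omega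
      · exact h0
    have hv0 : 0 < v := by
      rcases Nat.eq_zero_or_pos v with h0 | h0
      · rw [h0, mul_zero] at eb; omega
      · exact h0
    have huv : u < v := by
      have : g * u < g * v := by rw [ea, eb]; exact hab
      exact Nat.lt_of_mul_lt_mul_left this
    have hux : u ≤ x := (Nat.div_le_self _ _).trans ha2
    have hvx : v ≤ x := (Nat.div_le_self _ _).trans hb2
    have hgr : (0 : ℝ) < g := by exact_mod_cast hg
    have hLu : L ≤ u := by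
      have e1 : (a : ℝ) = g * u := by exact_mod_cast ea.symm
      have e2 : (b : ℝ) = g * v := by exact_mod_cast eb.symm
      rw [e1, e2] at hLab
      have h1 : (g : ℝ) * (L * ((v : ℝ) - u)) ≤ g * u := by linarith
      have h2 : L * ((v : ℝ) - u) ≤ u := le_of_mul_le_mul_left h1 hgr
      have h3 : (1 : ℝ) ≤ (v : ℝ) - u := by
        have : (u : ℝ) + 1 ≤ v := by exact_mod_cast huv
        linarith
      nlinarith
    rw [mem_biUnion]
    refine ⟨(u, v), ?_, ?_⟩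
    · rw [hUV, mem_filter, mem_product, mem_Icc, mem_Icc]
      exact ⟨⟨⟨hu0, hux⟩, hv0, hvx⟩, huv, hLu⟩
    · rw [mem_image]
      refine ⟨g, ?_, ?_⟩
      · simp only [hG, mem_filter, mem_Ioc]
        refine ⟨⟨hg, ?_⟩, hdvd⟩
        rw [Nat.le_div_iff_mul_le hv0, eb]
        exact hb2
      · simp only [ea, eb]
  have h1 : (near x L).card ≤ ∑ p ∈ UV, (x / p.2) / (rad p.1 * rad p.2) := by
    refine (card_le_card hsub).trans (card_biUnion_le.trans (sum_le_sum fun p _ => ?_))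
    refine card_image_le.trans ?_
    simp only [hG]
    rw [Nat.Ioc_filter_dvd_card_eq_div]
  have h2 : ∀ p ∈ UV, (((x / p.2) / (rad p.1 * rad p.2) : ℕ) : ℝ) ≤ x / √L * (ff (1 / 4) p.1 * ff (1 / 4) p.2) := by
    intro p hp
    rw [hUV, mem_filter, mem_product, mem_Icc, mem_Icc] at hp
    obtain ⟨⟨⟨hu1, -⟩, hv1, -⟩, huv, hLu⟩ := hp
    have hu0 : (0 : ℝ) < p.1 := by exact_mod_cast hu1
    have hv0 : (0 : ℝ) < p.2 := by exact_mod_cast hv1
    have huv' : (p.1 : ℝ) ≤ p.2 := by exact_mod_cast huv.le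
    have hL0 : 0 < √L := Real.sqrt_pos.mpr (by linarith)
    have hr1 : (0 : ℝ) < rad p.1 := by exact_mod_cast rad_pos _
    have hr2 : (0 : ℝ) < rad p.2 := by exact_mod_cast rad_pos _
    have h3 : √L * ((p.1 : ℝ) ^ (1 / 4 : ℝ) * (p.2 : ℝ) ^ (1 / 4 : ℝ)) ≤ p.2 := by
      have e1 : √L ≤ (p.2 : ℝ) ^ (1 / 2 : ℝ) := by
        rw [← Real.sqrt_eq_rpow]
        exact Real.sqrt_le_sqrt (hLu.trans huv')
      have e2 : (p.1 : ℝ) ^ (1 / 4 : ℝ) ≤ (p.2 : ℝ) ^ (1 / 4 : ℝ) :=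
        Real.rpow_le_rpow hu0.le huv' (by norm_num)
      calc √L * ((p.1 : ℝ) ^ (1 / 4 : ℝ) * (p.2 : ℝ) ^ (1 / 4 : ℝ))
          ≤ (p.2 : ℝ) ^ (1 / 2 : ℝ) * ((p.2 : ℝ) ^ (1 / 4 : ℝ) * (p.2 : ℝ) ^ (1 / 4 : ℝ)) := by
            gcongr
        _ = p.2 := by
            rw [← Real.rpow_add hv0, ← Real.rpow_add hv0]
            norm_num
    calc (((x / p.2) / (rad p.1 * rad p.2) : ℕ) : ℝ)
        ≤ ((x / p.2 : ℕ) : ℝ) / ((rad p.1 * rad p.2 : ℕ) : ℝ) := Nat.cast_div_le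
      _ ≤ ((x : ℝ) / p.2) / ((rad p.1 * rad p.2 : ℕ) : ℝ) := by
          gcongr
          exact Nat.cast_div_le
      _ ≤ x / √L * (ff (1 / 4) p.1 * ff (1 / 4) p.2) := by
          unfold ff
          push_cast
          rw [div_div, ← mul_inv, ← div_eq_mul_inv, div_div]
          refine div_le_div_of_nonneg_left (by positivity) (by positivity) ?_
          calc √L * ((p.1 : ℝ) ^ (1 / 4 : ℝ) * rad p.1 * ((p.2 : ℝ) ^ (1 / 4 : ℝ) * rad p.2))
              = √L * ((p.1 : ℝ) ^ (1 / 4 : ℝ) * (p.2 : ℝ) ^ (1 / 4 : ℝ)) *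
                (rad p.1 * rad p.2) := by ring
            _ ≤ p.2 * (rad p.1 * rad p.2) := by gcongr
  calc ((near x L).card : ℝ)
      ≤ ((∑ p ∈ UV, (x / p.2) / (rad p.1 * rad p.2) : ℕ) : ℝ) := by exact_mod_cast h1
    _ = ∑ p ∈ UV, (((x / p.2) / (rad p.1 * rad p.2) : ℕ) : ℝ) := by push_cast; rfl
    _ ≤ ∑ p ∈ UV, x / √L * (ff (1 / 4) p.1 * ff (1 / 4) p.2) := sum_le_sum h2
    _ ≤ ∑ p ∈ (Icc 1 x) ×ˢ (Icc 1 x), x / √L * (ff (1 / 4) p.1 * ff (1 / 4) p.2) := by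
        refine sum_le_sum_of_subset_of_nonneg (filter_subset _ _) fun p _ _ => ?_
        have := ff_nonneg (1 / 4) p.1
        have := ff_nonneg (1 / 4) p.2
        positivity
    _ = x / √L * ((∑ u ∈ Icc 1 x, ff (1 / 4) u) * ∑ v ∈ Icc 1 x, ff (1 / 4) v) := by
        rw [← mul_sum, sum_mul_sum, sum_product]
    _ ≤ x / √L * (K * K) := by
        have h0 : 0 ≤ ∑ v ∈ Icc 1 x, ff (1 / 4) v := sum_nonneg fun _ _ => ff_nonneg _ _
        have := hKM x
        gcongr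
    _ = K ^ 2 * x / √L := by ring

/-- pairs whose difference is at most `H` -/
lemma card_H {ε : ℝ} (hε : 0 < ε) (hε1 : ε ≤ 1) :
    ∃ D : ℝ, 0 < D ∧ ∀ (x H : ℕ) (F : Finset (ℕ × ℕ)),
      (∀ p ∈ F, 0 < p.1 ∧ p.1 < p.2 ∧ p.2 ≤ x ∧ p.1.primeFactors = p.2.primeFactors ∧
        p.2 ≤ p.1 + H) → (F.card : ℝ) ≤ D * (x : ℝ) ^ ε * (H : ℝ) ^ (1 - ε) := by
  classical
  obtain ⟨K, hK, hKM⟩ := exists_K (show 0 < ε / 2 by linarith)
  refine ⟨K ^ 2, by positivity, fun x H F hF => ?_⟩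
  set UV : Finset (ℕ × ℕ) := ((Icc 1 x) ×ˢ (Icc 1 x)).filter fun p => p.1 < p.2 with hUV
  set G : ℕ × ℕ → Finset ℕ := fun p => (Ioc 0 (min H (x / p.2))).filter
    fun g => rad p.1 * rad p.2 ∣ g with hG
  have hsub : F ⊆ UV.biUnion fun p => (G p).image fun g => (g * p.1, g * p.2) := by
    intro p hp
    obtain ⟨ha1, hab, hb2, hrad, hdiff⟩ := hF p hp
    obtain ⟨a, b⟩ := p
    simp only at ha1 hab hb2 hrad hdiff
    have hb1 : 0 < b := by omega
    have hg : 0 < a.gcd b := Nat.gcd_pos_of_pos_left _ ha1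
    have ea : a.gcd b * (a / a.gcd b) = a := Nat.mul_div_cancel' (Nat.gcd_dvd_left a b)
    have eb : a.gcd b * (b / a.gcd b) = b := Nat.mul_div_cancel' (Nat.gcd_dvd_right a b)
    have hdvd := rad_mul_rad_dvd_gcd ha1 hb1 hrad
    set g := a.gcd b with hgdef
    set u := a / g with hu
    set v := b / g with hv
    have hu0 : 0 < u := by
      rcases Nat.eq_zero_or_pos u with h0 | h0
      · rw [h0, mul_zero] at ea; omega
      · exact h0
    have hv0 : 0 < v := by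
      rcases Nat.eq_zero_or_pos v with h0 | h0
      · rw [h0, mul_zero] at eb; omega
      · exact h0
    have huv : u < v := by
      have : g * u < g * v := by rw [ea, eb]; exact hab
      exact Nat.lt_of_mul_lt_mul_left this
    have hux : u ≤ x := (Nat.div_le_self _ _).trans (by omega)
    have hvx : v ≤ x := (Nat.div_le_self _ _).trans hb2
    have hgH : g ≤ H := by
      have h1 : g * (u + 1) ≤ g * v := Nat.mul_le_mul_left g huv
      have h2 : g * (u + 1) = g * u + g := by ring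
      omega
    rw [mem_biUnion]
    refine ⟨(u, v), ?_, ?_⟩
    · rw [hUV, mem_filter, mem_product, mem_Icc, mem_Icc]
      exact ⟨⟨⟨hu0, hux⟩, hv0, hvx⟩, huv⟩
    · rw [mem_image]
      refine ⟨g, ?_, ?_⟩
      · simp only [hG, mem_filter, mem_Ioc]
        refine ⟨⟨hg, le_min hgH ?_⟩, hdvd⟩
        rw [Nat.le_div_iff_mul_le hv0, eb]
        exact hb2
      · simp only [ea, eb]
  have h1 : F.card ≤ ∑ p ∈ UV, (min H (x / p.2)) / (rad p.1 * rad p.2) := by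
    refine (card_le_card hsub).trans (card_biUnion_le.trans (sum_le_sum fun p _ => ?_))
    refine card_image_le.trans ?_
    simp only [hG]
    rw [Nat.Ioc_filter_dvd_card_eq_div]
  have h2 : ∀ p ∈ UV, (((min H (x / p.2)) / (rad p.1 * rad p.2) : ℕ) : ℝ) ≤
      (x : ℝ) ^ ε * (H : ℝ) ^ (1 - ε) * (ff (ε / 2) p.1 * ff (ε / 2) p.2) := by
    intro p hp
    rw [hUV, mem_filter, mem_product, mem_Icc, mem_Icc] at hp
    obtain ⟨⟨⟨hu1, -⟩, hv1, -⟩, huv⟩ := hp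
    have hu0 : (0 : ℝ) < p.1 := by exact_mod_cast hu1
    have hv0 : (0 : ℝ) < p.2 := by exact_mod_cast hv1
    have huv' : (p.1 : ℝ) ≤ p.2 := by exact_mod_cast huv.le
    have hr1 : (0 : ℝ) < rad p.1 := by exact_mod_cast rad_pos _
    have hr2 : (0 : ℝ) < rad p.2 := by exact_mod_cast rad_pos _
    set m : ℕ := min H (x / p.2) with hm
    have hmain : (m : ℝ) ≤ (x : ℝ) ^ ε * (H : ℝ) ^ (1 - ε) *
        ((p.1 : ℝ) ^ (ε / 2) * (p.2 : ℝ) ^ (ε / 2))⁻¹ := by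
      rcases Nat.eq_zero_or_pos m with h0 | h0
      · rw [h0]
        push_cast
        positivity
      · have hm0 : (0 : ℝ) < m := by exact_mod_cast h0
        have hmH : (m : ℝ) ≤ H := by exact_mod_cast min_le_left _ _
        have hmx : (m : ℝ) ≤ (x : ℝ) / p.2 :=
          le_trans (by exact_mod_cast min_le_right _ _) Nat.cast_div_le
        have e1 : (m : ℝ) = (m : ℝ) ^ ε * (m : ℝ) ^ (1 - ε) := by
          rw [← Real.rpow_add hm0]
          norm_num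
        have e2 : (m : ℝ) ^ ε ≤ ((x : ℝ) / p.2) ^ ε := Real.rpow_le_rpow hm0.le hmx hε.le
        have e3 : (m : ℝ) ^ (1 - ε) ≤ (H : ℝ) ^ (1 - ε) :=
          Real.rpow_le_rpow hm0.le hmH (by linarith)
        have e4 : ((x : ℝ) / p.2) ^ ε ≤ (x : ℝ) ^ ε *
            ((p.1 : ℝ) ^ (ε / 2) * (p.2 : ℝ) ^ (ε / 2))⁻¹ := by
          rw [Real.div_rpow (by positivity) hv0.le, div_eq_mul_inv]
          have e5 : (p.1 : ℝ) ^ (ε / 2) * (p.2 : ℝ) ^ (ε / 2) ≤ (p.2 : ℝ) ^ ε := by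
            calc (p.1 : ℝ) ^ (ε / 2) * (p.2 : ℝ) ^ (ε / 2)
                ≤ (p.2 : ℝ) ^ (ε / 2) * (p.2 : ℝ) ^ (ε / 2) := by
                  have := Real.rpow_le_rpow hu0.le huv' (show 0 ≤ ε / 2 by linarith)
                  gcongr
              _ = (p.2 : ℝ) ^ ε := by
                  rw [← Real.rpow_add hv0]
                  congr 1
                  ring
          have e6 : ((p.2 : ℝ) ^ ε)⁻¹ ≤ ((p.1 : ℝ) ^ (ε / 2) * (p.2 : ℝ) ^ (ε / 2))⁻¹ :=
            inv_anti₀ (by positivity) e5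
          gcongr
        calc (m : ℝ) = (m : ℝ) ^ ε * (m : ℝ) ^ (1 - ε) := e1
          _ ≤ ((x : ℝ) ^ ε * ((p.1 : ℝ) ^ (ε / 2) * (p.2 : ℝ) ^ (ε / 2))⁻¹) *
              (H : ℝ) ^ (1 - ε) := by
              have := e2.trans e4
              gcongr
          _ = _ := by ring
    calc ((m / (rad p.1 * rad p.2) : ℕ) : ℝ)
        ≤ (m : ℝ) / ((rad p.1 * rad p.2 : ℕ) : ℝ) := Nat.cast_div_le
      _ ≤ ((x : ℝ) ^ ε * (H : ℝ) ^ (1 - ε) * ((p.1 : ℝ) ^ (ε / 2) * (p.2 : ℝ) ^ (ε / 2))⁻¹) /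
          ((rad p.1 * rad p.2 : ℕ) : ℝ) := by gcongr
      _ = (x : ℝ) ^ ε * (H : ℝ) ^ (1 - ε) * (ff (ε / 2) p.1 * ff (ε / 2) p.2) := by
          unfold ff
          push_cast
          field_simp
  calc (F.card : ℝ)
      ≤ ((∑ p ∈ UV, (min H (x / p.2)) / (rad p.1 * rad p.2) : ℕ) : ℝ) := by exact_mod_cast h1
    _ = ∑ p ∈ UV, (((min H (x / p.2)) / (rad p.1 * rad p.2) : ℕ) : ℝ) := by push_cast; rfl
    _ ≤ ∑ p ∈ UV, (x : ℝ) ^ ε * (H : ℝ) ^ (1 - ε) * (ff (ε / 2) p.1 * ff (ε / 2) p.2) :=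
        sum_le_sum h2
    _ ≤ ∑ p ∈ (Icc 1 x) ×ˢ (Icc 1 x),
        (x : ℝ) ^ ε * (H : ℝ) ^ (1 - ε) * (ff (ε / 2) p.1 * ff (ε / 2) p.2) := by
        refine sum_le_sum_of_subset_of_nonneg (filter_subset _ _) fun p _ _ => ?_
        have := ff_nonneg (ε / 2) p.1
        have := ff_nonneg (ε / 2) p.2
        positivity
    _ = (x : ℝ) ^ ε * (H : ℝ) ^ (1 - ε) *
        ((∑ u ∈ Icc 1 x, ff (ε / 2) u) * ∑ v ∈ Icc 1 x, ff (ε / 2) v) := by
        rw [← mul_sum, sum_mul_sum, sum_product]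
    _ ≤ (x : ℝ) ^ ε * (H : ℝ) ^ (1 - ε) * (K * K) := by
        have h0 : 0 ≤ ∑ v ∈ Icc 1 x, ff (ε / 2) v := sum_nonneg fun _ _ => ff_nonneg _ _
        have := hKM x
        gcongr
    _ = K ^ 2 * (x : ℝ) ^ ε * (H : ℝ) ^ (1 - ε) := by ring

end Pool.Agent.H69.ED
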