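import Pool.Agent.H1.PP.Pnt

/-!
# Primes between `a` and `b`

For large `a` and `a < b < 2a` the sum of `log p` over the primes strictly between `a` and `b`
differs from `b - a` by at most `a / (log a)^A`.
-/

set_option autoImplicit false

namespace Pool.Agent.H69.ED

open Finset Filter

lemma Lam_sum (x : ℕ) : ‖∑ n ∈ range x, Pool.Agent.H10.RP.Lam n - (x : ℂ)‖ =
    |∑ n ∈ range x, ArithmeticFunction.vonMangoldt n - (x : ℝ)| := by
  unfold Pool.Agent.H10.RP.Lam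
  rw [← Complex.ofReal_sum, ← Complex.ofReal_natCast, ← Complex.ofReal_sub, Complex.norm_real,
    Real.norm_eq_abs]

lemma psi_nat (x : ℕ) : Chebyshev.psi (x : ℝ) = ∑ n ∈ range (x + 1), ArithmeticFunction.vonMangoldt n := by
  unfold Chebyshev.psi
  rw [Nat.floor_natCast, Finset.range_eq_Ico, Finset.sum_eq_sum_Ico_succ_bot (by omega)]
  rw [ArithmeticFunction.map_zero, zero_add]
  refine sum_congr ?_ fun _ _ => rfl
  ext n
  rw [mem_Ioc, mem_Ico]
  omega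

/-- the sum of `log p` over the primes strictly between `a` and `b` -/
noncomputable def between (a b : ℕ) : ℝ := ∑ p ∈ Ioo a b with p.Prime, Real.log p

lemma theta_sub {a c : ℕ} (h : a ≤ c) :
    Chebyshev.theta (c : ℝ) = Chebyshev.theta (a : ℝ) + between a (c + 1) := by
  unfold Chebyshev.theta between
  rw [Nat.floor_natCast, Nat.floor_natCast, ← Finset.sum_union]
  · refine sum_congr ?_ fun _ _ => rfl
    ext n
    simp only [mem_filter, mem_union, mem_Ioc, mem_Ioo]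
    constructor
    · rintro ⟨⟨h1, h2⟩, h3⟩
      rcases le_or_gt n a with h4 | h4
      · exact Or.inl ⟨⟨h1, h4⟩, h3⟩
      · exact Or.inr ⟨⟨h4, by omega⟩, h3⟩
    · rintro (⟨⟨h1, h2⟩, h3⟩ | ⟨⟨h1, h2⟩, h3⟩)
      · exact ⟨⟨h1, by omega⟩, h3⟩
      · exact ⟨⟨by omega, by omega⟩, h3⟩
  · rw [Finset.disjoint_left]
    intro n h1 h2
    simp only [mem_filter, mem_Ioc, mem_Ioo] at h1 h2
    omega

lemma between_bound (A : ℕ) : ∃ n₀ : ℕ, ∀ a b : ℕ, n₀ ≤ a → a < b → b < 2 * a →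
    |between a b - ((b : ℝ) - a)| ≤ a / (Real.log a) ^ A := by
  obtain ⟨x₀, hx₀⟩ := Pool.Agent.H1.PP.pnt_err (A + 1)
  obtain ⟨C, hC⟩ := Chebyshev.psi_sub_theta_le_mul_sqrt
  have hev : ∀ᶠ x : ℝ in atTop, Real.log x ^ (2 * (A + 1)) ≤ x := by
    have h1 := (Real.isLittleO_pow_log_id_atTop (n := 2 * (A + 1))).bound one_pos
    filter_upwards [h1, Filter.eventually_ge_atTop (1 : ℝ)] with x hx hx1
    have := Real.log_nonneg hx1
    rw [Real.norm_of_nonneg (by positivity), id, Real.norm_of_nonneg (by linarith), one_mul] at hx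
    exact hx
  have hev2 : ∀ᶠ x : ℝ in atTop, 5 + 2 * |C| ≤ Real.log x :=
    Real.tendsto_log_atTop.eventually_ge_atTop _
  obtain ⟨X₀, hX₀⟩ := eventually_atTop.mp (hev.and hev2)
  obtain ⟨x₁, hx₁⟩ := exists_nat_ge X₀
  refine ⟨max x₀ (max x₁ 1), fun a b ha hab hb2 => ?_⟩
  have ha0 : x₀ ≤ a := (le_max_left _ _).trans ha
  have ha1 : x₁ ≤ a := ((le_max_left _ _).trans (le_max_right _ _)).trans ha
  have ha2 : 1 ≤ a := ((le_max_right _ _).trans (le_max_right _ _)).trans ha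
  obtain ⟨h1, h2⟩ := hX₀ a (hx₁.trans (by exact_mod_cast ha1))
  have har : (1 : ℝ) ≤ a := by exact_mod_cast ha2
  have hapos : (0 : ℝ) < a := by linarith
  obtain ⟨c, rfl⟩ : ∃ c, b = c + 1 := ⟨b - 1, by omega⟩
  have hac : a ≤ c := by omega
  have hacr : (a : ℝ) ≤ c := by exact_mod_cast hac
  have hc2 : (c : ℝ) ≤ 2 * a := by
    have : c ≤ 2 * a := by omega
    exact_mod_cast this
  set ℓ := Real.log a with hℓ
  have hC0 := abs_nonneg C
  have hℓ5 : 5 ≤ ℓ := by linarith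
  have hℓ0 : 0 < ℓ := by linarith
  -- the prime number theorem at `a + 1` and at `c + 1`
  have e1 := hx₀ (a + 1) (by omega)
  have e2 := hx₀ (c + 1) (by omega)
  rw [Lam_sum, ← psi_nat] at e1 e2
  have hlog1 : ℓ ≤ Real.log ((a + 1 : ℕ) : ℝ) := Real.log_le_log hapos (by push_cast; linarith)
  have hlog2 : ℓ ≤ Real.log ((c + 1 : ℕ) : ℝ) := Real.log_le_log hapos (by push_cast; linarith)
  have hp : 0 < ℓ ^ (A + 1) := by positivity
  have f1 : |Chebyshev.psi (a : ℝ) - ((a + 1 : ℕ) : ℝ)| ≤ 2 * (a / ℓ ^ (A + 1)) := by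
    refine e1.trans ?_
    rw [← mul_div_assoc]
    have : ((a + 1 : ℕ) : ℝ) ≤ 2 * a := by push_cast; linarith
    gcongr
  have f2 : |Chebyshev.psi (c : ℝ) - ((c + 1 : ℕ) : ℝ)| ≤ 2 * (a / ℓ ^ (A + 1)) := by
    refine e2.trans ?_
    rw [← mul_div_assoc]
    have : ((c + 1 : ℕ) : ℝ) ≤ 2 * a := by
      have : c + 1 ≤ 2 * a := by omega
      exact_mod_cast this
    gcongr
  have hth := theta_sub hac
  -- the prime powers
  have g1 := hC (a : ℝ)
  have g2 := hC (c : ℝ)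
  have g3 := Chebyshev.theta_le_psi (a : ℝ)
  have g4 := Chebyshev.theta_le_psi (c : ℝ)
  have hsa : (0 : ℝ) ≤ √(a : ℝ) := Real.sqrt_nonneg _
  have hsc : √(c : ℝ) ≤ 2 * √(a : ℝ) := by
    calc √(c : ℝ) ≤ √((2 : ℝ) ^ 2 * a) := Real.sqrt_le_sqrt (by linarith)
      _ = 2 * √(a : ℝ) := by rw [Real.sqrt_mul (by norm_num), Real.sqrt_sq (by norm_num)]
  have g5 : Chebyshev.psi (a : ℝ) - Chebyshev.theta (a : ℝ) ≤ 2 * |C| * √(a : ℝ) := by
    refine g1.trans ?_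
    have : C * √(a : ℝ) ≤ |C| * √(a : ℝ) := mul_le_mul_of_nonneg_right (le_abs_self C) hsa
    nlinarith
  have g6 : Chebyshev.psi (c : ℝ) - Chebyshev.theta (c : ℝ) ≤ 2 * |C| * √(a : ℝ) := by
    refine g2.trans ?_
    calc C * √(c : ℝ) ≤ |C| * √(c : ℝ) := mul_le_mul_of_nonneg_right (le_abs_self C) (Real.sqrt_nonneg _)
      _ ≤ |C| * (2 * √(a : ℝ)) := by gcongr
      _ = 2 * |C| * √(a : ℝ) := by ring
  -- the square root is small
  have h3 : ℓ ^ (A + 1) ≤ √(a : ℝ) := by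
    apply Real.le_sqrt_of_sq_le
    rw [← pow_mul, mul_comm (A + 1) 2]
    exact h1
  have h4 : √(a : ℝ) ≤ a / ℓ ^ (A + 1) := by
    rw [le_div_iff₀ hp]
    calc √(a : ℝ) * ℓ ^ (A + 1) ≤ √(a : ℝ) * √(a : ℝ) := by gcongr
      _ = a := Real.mul_self_sqrt hapos.le
  have key : |between a (c + 1) - (((c + 1 : ℕ) : ℝ) - a)| ≤ 1 + 4 * (a / ℓ ^ (A + 1)) +
      2 * |C| * √(a : ℝ) := by
    have u1 := abs_le.mp f1
    have u2 := abs_le.mp f2
    rw [abs_le]
    push_cast at u1 u2 ⊢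
    constructor <;> linarith
  refine key.trans ?_
  have h5 : 1 ≤ √(a : ℝ) := by rw [Real.one_le_sqrt]; exact har
  calc 1 + 4 * (a / ℓ ^ (A + 1)) + 2 * |C| * √(a : ℝ)
      ≤ a / ℓ ^ (A + 1) + 4 * (a / ℓ ^ (A + 1)) + 2 * |C| * (a / ℓ ^ (A + 1)) := by
        have h6 : 2 * |C| * √(a : ℝ) ≤ 2 * |C| * (a / ℓ ^ (A + 1)) := by gcongr
        linarith
    _ = (5 + 2 * |C|) * (a / ℓ ^ (A + 1)) := by ring
    _ ≤ ℓ * (a / ℓ ^ (A + 1)) := by gcongr
    _ = a / ℓ ^ A := by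
        rw [pow_succ]
        field_simp

end Pool.Agent.H69.ED
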